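import Pool.Agent.Helper775.Tight.Final

/-!
# Tight substantial maps of manifolds like projective planes: `N ≤ 3 d + 2`

Positive answer to Q1. All definitions are in `Pool/Agent/Helper775/Tight/SingDefs.lean`.

Idea: let `G = {(x, z) : x maximises ⟨z, f⟩} ⊆ P × S^{N-1}`, and `G₂ = {(x, y, z)}` its fibre square over
the sphere.  The fibres over `P` (resp. `P × P`) are spherically convex, so `G`, `G₂` have no cohomology
above degree `2 d`, `4 d`.  The fibres over the sphere are acyclic or have the cohomology `1, α`.
If `N ≥ 3 d + 3`, two Gysin type arguments and Leray-Hirsch give a non-zero class of degree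
`N - 2 + d ≥ 4 d + 1` on `G₂`.
-/

namespace Pool.Agent.Results.MP_bb5b69_gt.TightSubstantialBound

open Pool.Agent.Helper775.Tight

/-- Let `P` be a closed topological `2d`-manifold (`d ≥ 1`) containing a sphere `S^d` whose complement
is homeomorphic to `ℝ^{2d}`, and let `f : P → ℝ^N` be a continuous substantial map which is tight
(for singular homology mod 2, or for Čech theory mod 2). Then `N ≤ 3 d + 2`. -/
theorem result {P : Type*} [TopologicalSpace P] {d N : ℕ} (hd : 1 ≤ d)
    [ChartedSpace (EuclideanSpace ℝ (Fin (2 * d))) P] (hP : IsLikeProjectivePlane d P)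
    (f : P → EuclideanSpace ℝ (Fin N)) (hf : Continuous f) (hs : Substantial f)
    (ht : TightMap f ∨ CechTightMap f) : N ≤ 3 * d + 2 :=
  final hd hP f hf hs ht

end Pool.Agent.Results.MP_bb5b69_gt.TightSubstantialBound
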